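import Mathlib

set_option autoImplicit false

namespace Pool.Agent.LibSchur53

/-- Every colouring of `1, ..., k` with `n` colours has a monochromatic solution of `x + y = z`. -/
def Forced (n k : ℕ) : Prop :=
  ∀ c : ℕ → Fin n, ∃ x y z : ℕ,
    1 ≤ x ∧ x ≤ k ∧ 1 ≤ y ∧ y ≤ k ∧ 1 ≤ z ∧ z ≤ k ∧ c x = c y ∧ c y = c z ∧ x + y = z

/-- Every colouring of `1, ..., k` with `n` colours has a monochromatic solution of
`x + y ≡ z` modulo `k + 1`. -/
def ForcedMod (n k : ℕ) : Prop :=
  ∀ c : ℕ → Fin n, ∃ x y z : ℕ,
    1 ≤ x ∧ x ≤ k ∧ 1 ≤ y ∧ y ≤ k ∧ 1 ≤ z ∧ z ≤ k ∧ c x = c y ∧ c y = c z ∧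
      x + y ≡ z [MOD k + 1]

/-- The Schur number. -/
noncomputable def s (n : ℕ) : ℕ := sInf {k : ℕ | Forced n k}

/-- The modular Schur number. -/
noncomputable def t (n : ℕ) : ℕ := sInf {k : ℕ | ForcedMod n k}

theorem schur_aux (n m : ℕ) :
    ∃ R : ℕ, ∀ (c : ℕ → Fin n) (C : Finset (Fin n)) (A : Finset ℕ), C.card = m → R ≤ A.card →
      (∀ x ∈ A, ∀ y ∈ A, x < y → c (y - x) ∈ C) →
      ∃ x ∈ A, ∃ y ∈ A, ∃ z ∈ A, x < y ∧ y < z ∧ c (y - x) = c (z - y) ∧ c (z - y) = c (z - x) := by
  induction m with
  | zero =>
    refine ⟨2, ?_⟩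
    intro c C A hC hA h
    obtain ⟨x, hx, y, hy, hxy⟩ := Finset.one_lt_card.1 (show 1 < A.card by omega)
    rw [Finset.card_eq_zero] at hC
    subst hC
    rcases lt_or_gt_of_ne hxy with h1 | h1
    · exact absurd (h x hx y hy h1) (Finset.notMem_empty _)
    · exact absurd (h y hy x hx h1) (Finset.notMem_empty _)
  | succ m ih =>
    obtain ⟨R, hR⟩ := ih
    refine ⟨(m + 1) * R + 2, ?_⟩
    intro c C A hC hA h
    have hne : A.Nonempty := Finset.card_pos.1 (by omega)
    set a := A.min' hne with ha
    have haA : a ∈ A := A.min'_mem hne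
    have hlt : ∀ x ∈ A.erase a, a < x := fun x hx => Finset.min'_lt_of_mem_erase_min' A hne hx
    have hcard : (A.erase a).card + 1 = A.card := Finset.card_erase_add_one haA
    have hmaps : ∀ x ∈ A.erase a, c (x - a) ∈ C := fun x hx =>
      h a haA x (Finset.mem_of_mem_erase hx) (hlt x hx)
    obtain ⟨i, hiC, hi⟩ := Finset.exists_lt_card_fiber_of_mul_lt_card_of_maps_to hmaps
      (n := R) (by rw [hC]; omega)
    set B := (A.erase a).filter (fun x => c (x - a) = i) with hB
    by_cases hex : ∃ x ∈ B, ∃ y ∈ B, x < y ∧ c (y - x) = i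
    · obtain ⟨x, hx, y, hy, hxy, hc⟩ := hex
      rw [hB, Finset.mem_filter] at hx hy
      refine ⟨a, haA, x, Finset.mem_of_mem_erase hx.1, y, Finset.mem_of_mem_erase hy.1,
        hlt x hx.1, hxy, ?_, ?_⟩
      · rw [hx.2, hc]
      · rw [hc, hy.2]
    · push Not at hex
      have hB' : ∀ x ∈ B, ∀ y ∈ B, x < y → c (y - x) ∈ C.erase i := by
        intro x hx y hy hxy
        rw [Finset.mem_erase]
        refine ⟨hex x hx y hy hxy, ?_⟩
        rw [hB, Finset.mem_filter] at hx hy
        exact h x (Finset.mem_of_mem_erase hx.1) y (Finset.mem_of_mem_erase hy.1) hxy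
      obtain ⟨x, hx, y, hy, z, hz, h1, h2, h3, h4⟩ := hR c (C.erase i) B
        (by rw [Finset.card_erase_of_mem hiC, hC]; rfl) hi.le hB'
      rw [hB, Finset.mem_filter] at hx hy hz
      exact ⟨x, Finset.mem_of_mem_erase hx.1, y, Finset.mem_of_mem_erase hy.1, z,
        Finset.mem_of_mem_erase hz.1, h1, h2, h3, h4⟩

/-- Schur's theorem. -/
theorem exists_forced (n : ℕ) : ∃ k, Forced n k := by
  obtain ⟨R, hR⟩ := schur_aux n n
  refine ⟨R, ?_⟩
  intro c
  obtain ⟨x, hx, y, hy, z, hz, h1, h2, h3, h4⟩ := hR c Finset.univ (Finset.range R) (by simp)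
    (by simp) (by simp)
  rw [Finset.mem_range] at hx hy hz
  exact ⟨y - x, z - y, z - x, by omega, by omega, by omega, by omega, by omega, by omega, h3, h4,
    by omega⟩

theorem forcedMod_of_forced {n k : ℕ} (h : Forced n k) : ForcedMod n k := by
  intro c
  obtain ⟨x, y, z, h1, h2, h3, h4, h5, h6, h7, h8, h9⟩ := h c
  exact ⟨x, y, z, h1, h2, h3, h4, h5, h6, h7, h8, by rw [h9]⟩

theorem forced_s (n : ℕ) : Forced n (s n) := Nat.sInf_mem (exists_forced n)

theorem forcedMod_t (n : ℕ) : ForcedMod n (t n) :=
  Nat.sInf_mem ((exists_forced n).imp fun _ h => forcedMod_of_forced h)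

theorem t_le_s (n : ℕ) : t n ≤ s n := Nat.sInf_le (forcedMod_of_forced (forced_s n))

theorem Forced.mono {n k l : ℕ} (h : Forced n k) (hkl : k ≤ l) : Forced n l := by
  intro c
  obtain ⟨x, y, z, h1, h2, h3, h4, h5, h6, h7, h8, h9⟩ := h c
  exact ⟨x, y, z, h1, h2.trans hkl, h3, h4.trans hkl, h5, h6.trans hkl, h7, h8, h9⟩

theorem s_pos {n : ℕ} (hn : 1 ≤ n) : 1 ≤ s n := by
  by_contra h
  have h0 : s n = 0 := by omega
  have h1 := forced_s n
  rw [h0] at h1
  obtain ⟨x, y, z, h1, h2, -⟩ := h1 (fun _ => ⟨0, hn⟩)
  omega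

/-- The key construction: a modular colouring with one more colour. -/
theorem not_forcedMod {n m k : ℕ} (h : ¬ Forced n m) (hk : k ≤ 3 * m + 1) :
    ¬ ForcedMod (n + 1) k := by
  unfold Forced at h
  push Not at h
  obtain ⟨c, hc⟩ := h
  intro hF
  let d : ℕ → Fin (n + 1) := fun x =>
    if 3 * x < k + 1 then (c x).castSucc
    else if 3 * x < 2 * (k + 1) then Fin.last n
    else (c (k + 1 - x)).castSucc
  obtain ⟨x, y, z, hx1, hx2, hy1, hy2, hz1, hz2, hxy, hyz, hmod⟩ := hF d
  -- x + y = z or x + y = z + (k+1)
  have hsum : x + y = z ∨ x + y = z + (k + 1) := by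
    have h1 : (x + y) % (k + 1) = z := by
      have := hmod
      unfold Nat.ModEq at this
      rw [this]
      exact Nat.mod_eq_of_lt (by omega)
    rcases Nat.lt_or_ge (x + y) (k + 1) with h2 | h2
    · left
      rw [Nat.mod_eq_of_lt h2] at h1
      exact h1
    · right
      rw [Nat.mod_eq_sub_mod h2, Nat.mod_eq_of_lt (by omega)] at h1
      omega
  have hlast : ∀ i : Fin n, i.castSucc ≠ Fin.last n := fun i => (Fin.castSucc_lt_last i).ne
  have hdef1 : ∀ u, 3 * u < k + 1 → d u = (c u).castSucc := by
    intro u hu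
    simp only [d, if_pos hu]
  have hdef2 : ∀ u, ¬ 3 * u < k + 1 → 3 * u < 2 * (k + 1) → d u = Fin.last n := by
    intro u hu hu'
    simp only [d, if_neg hu, if_pos hu']
  have hdef3 : ∀ u, ¬ 3 * u < k + 1 → ¬ 3 * u < 2 * (k + 1) → d u = (c (k + 1 - u)).castSucc := by
    intro u hu hu'
    simp only [d, if_neg hu, if_neg hu']
  have key : ∀ a b e : ℕ, 1 ≤ a → a ≤ m → 1 ≤ b → b ≤ m → 1 ≤ e → e ≤ m →
      c a = c b → c b = c e → a + b ≠ e := hc
  by_cases hxs : 3 * x < k + 1
  · have ex := hdef1 x hxs
    by_cases hys : 3 * y < k + 1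
    · have ey := hdef1 y hys
      rw [ex, ey] at hxy
      have hxy' := Fin.castSucc_injective _ hxy
      by_cases hzs : 3 * z < k + 1
      · have ez := hdef1 z hzs
        rw [ey, ez] at hyz
        have hyz' := Fin.castSucc_injective _ hyz
        rcases hsum with h1 | h1
        · exact key x y z hx1 (by omega) hy1 (by omega) hz1 (by omega) hxy' hyz' h1
        · omega
      · by_cases hzm : 3 * z < 2 * (k + 1)
        · have ez := hdef2 z hzs hzm
          rw [ey, ez] at hyz
          exact hlast _ hyz
        · omega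
    · by_cases hym : 3 * y < 2 * (k + 1)
      · have ey := hdef2 y hys hym
        rw [ex, ey] at hxy
        exact hlast _ hxy
      · have ey := hdef3 y hys hym
        rw [ex, ey] at hxy
        have hxy' := Fin.castSucc_injective _ hxy
        by_cases hzs : 3 * z < k + 1
        · have ez := hdef1 z hzs
          rw [ey, ez] at hyz
          have hyz' := Fin.castSucc_injective _ hyz
          -- x + y = z + N, N - y = b, x = z + b
          rcases hsum with h1 | h1
          · omega
          · exact key z (k + 1 - y) x hz1 (by omega) (by omega) (by omega) hx1 (by omega)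
              (hyz'.symm) (hxy'.symm) (by omega)
        · by_cases hzm : 3 * z < 2 * (k + 1)
          · have ez := hdef2 z hzs hzm
            rw [ey, ez] at hyz
            exact hlast _ hyz
          · have ez := hdef3 z hzs hzm
            rw [ey, ez] at hyz
            have hyz' := Fin.castSucc_injective _ hyz
            rcases hsum with h1 | h1
            · exact key x (k + 1 - z) (k + 1 - y) hx1 (by omega) (by omega) (by omega) (by omega)
                (by omega) (hxy'.trans hyz') (hyz'.symm) (by omega)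
            · omega
  · by_cases hxm : 3 * x < 2 * (k + 1)
    · have ex := hdef2 x hxs hxm
      by_cases hys : 3 * y < k + 1
      · rw [ex, hdef1 y hys] at hxy
        exact hlast _ hxy.symm
      · by_cases hym : 3 * y < 2 * (k + 1)
        · by_cases hzs : 3 * z < k + 1
          · rw [hdef2 y hys hym, hdef1 z hzs] at hyz
            exact hlast _ hyz.symm
          · by_cases hzm : 3 * z < 2 * (k + 1)
            · omega
            · rw [hdef2 y hys hym, hdef3 z hzs hzm] at hyz
              exact hlast _ hyz.symm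
        · rw [ex, hdef3 y hys hym] at hxy
          exact hlast _ hxy.symm
    · have ex := hdef3 x hxs hxm
      by_cases hys : 3 * y < k + 1
      · have ey := hdef1 y hys
        rw [ex, ey] at hxy
        have hxy' := Fin.castSucc_injective _ hxy
        by_cases hzs : 3 * z < k + 1
        · have ez := hdef1 z hzs
          rw [ey, ez] at hyz
          have hyz' := Fin.castSucc_injective _ hyz
          rcases hsum with h1 | h1
          · omega
          · exact key z (k + 1 - x) y hz1 (by omega) (by omega) (by omega) hy1 (by omega)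
              ((hxy'.trans hyz').symm) hxy' (by omega)
        · by_cases hzm : 3 * z < 2 * (k + 1)
          · have ez := hdef2 z hzs hzm
            rw [ey, ez] at hyz
            exact hlast _ hyz
          · have ez := hdef3 z hzs hzm
            rw [ey, ez] at hyz
            have hyz' := Fin.castSucc_injective _ hyz
            rcases hsum with h1 | h1
            · exact key y (k + 1 - z) (k + 1 - x) hy1 (by omega) (by omega) (by omega) (by omega)
                (by omega) hyz' ((hxy'.trans hyz').symm) (by omega)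
            · omega
      · by_cases hym : 3 * y < 2 * (k + 1)
        · rw [ex, hdef2 y hys hym] at hxy
          exact hlast _ hxy
        · have ey := hdef3 y hys hym
          rw [ex, ey] at hxy
          have hxy' := Fin.castSucc_injective _ hxy
          by_cases hzs : 3 * z < k + 1
          · rcases hsum with h1 | h1 <;> omega
          · by_cases hzm : 3 * z < 2 * (k + 1)
            · have ez := hdef2 z hzs hzm
              rw [ey, ez] at hyz
              exact hlast _ hyz
            · have ez := hdef3 z hzs hzm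
              rw [ey, ez] at hyz
              have hyz' := Fin.castSucc_injective _ hyz
              rcases hsum with h1 | h1
              · omega
              · exact key (k + 1 - x) (k + 1 - y) (k + 1 - z) (by omega) (by omega) (by omega)
                  (by omega) (by omega) (by omega) hxy' hyz' (by omega)

theorem recursion {n : ℕ} (hn : 1 ≤ n) : 3 * s n ≤ t (n + 1) + 1 := by
  have h1 := s_pos hn
  have h2 : ¬ Forced n (s n - 1) := by
    have : s n - 1 < s n := by omega
    exact Nat.notMem_of_lt_sInf this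
  by_contra hcon
  exact not_forcedMod h2 (k := t (n + 1)) (by omega) (forcedMod_t (n + 1))

end Pool.Agent.LibSchur53
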