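import Pool.Agent.LibSchur53.Basic

set_option autoImplicit false

namespace Pool.Agent.LibSchur53

open Filter Topology

theorem hrep {f g u M : ℕ} (hM : M = 2 * f + 1) (hu1 : 1 ≤ u) (hu2 : u ≤ M * g + f)
    (hu : ¬ (1 ≤ u % M ∧ u % M ≤ f)) :
    1 ≤ (u + f) / M ∧ (u + f) / M ≤ g ∧ u ≤ M * ((u + f) / M) ∧
      M * ((u + f) / M) ≤ u + f := by
  have hMpos : 0 < M := by omega
  have h1 := Nat.div_add_mod (u + f) M
  have h2 := Nat.mod_lt (u + f) hMpos
  set A := (u + f) / M with hA
  set r := (u + f) % M with hr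
  have h3 : M * A ≤ u + f := by omega
  have h4 : u ≤ M * A := by
    by_contra hcon
    have h5 : u = M * A + (r - f) := by omega
    have h6 : u % M = r - f := by
      conv_lhs => rw [h5]
      rw [Nat.mul_add_mod, Nat.mod_eq_of_lt (by omega)]
    exact hu ⟨by omega, by omega⟩
  refine ⟨?_, ?_, h4, h3⟩
  · by_contra hcon
    have : A = 0 := Nat.lt_one_iff.1 (not_le.1 hcon)
    rw [this] at h4
    omega
  · by_contra hcon
    have h5 : M * (g + 1) ≤ M * A := Nat.mul_le_mul_left _ (not_le.1 hcon)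
    rw [Nat.mul_add] at h5
    omega

/-- The product construction of Abbott and Hanson. -/
theorem not_forced_add {n m f g : ℕ} (hf : ¬ Forced n f) (hg : ¬ Forced m g) :
    ¬ Forced (n + m) ((2 * f + 1) * g + f) := by
  unfold Forced at hf hg
  push Not at hf hg
  obtain ⟨c, hc⟩ := hf
  obtain ⟨d, hd⟩ := hg
  intro hF
  set M := 2 * f + 1 with hM
  -- for x: residue b = x % M; if 1 ≤ b ≤ f use c b, else use d ((x + f) / M)
  let e : ℕ → Fin (n + m) := fun x =>
    if 1 ≤ x % M ∧ x % M ≤ f then Fin.castAdd m (c (x % M)) else Fin.natAdd n (d ((x + f) / M))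
  obtain ⟨x, y, z, hx1, hx2, hy1, hy2, hz1, hz2, hxy, hyz, hsum⟩ := hF e
  have hne : ∀ (i : Fin n) (j : Fin m), Fin.castAdd m i ≠ Fin.natAdd n j := by
    intro i j h
    have := congrArg Fin.val h
    simp only [Fin.val_castAdd, Fin.val_natAdd] at this
    have := i.2
    omega
  have hMpos : 0 < M := by omega
  have hdec : ∀ u, M * (u / M) + u % M = u := fun u => Nat.div_add_mod u M
  have hmod : ∀ u, u % M < M := fun u => Nat.mod_lt u hMpos
  by_cases hxs : 1 ≤ x % M ∧ x % M ≤ f
  · have ex : e x = Fin.castAdd m (c (x % M)) := if_pos hxs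
    by_cases hys : 1 ≤ y % M ∧ y % M ≤ f
    · have ey : e y = Fin.castAdd m (c (y % M)) := if_pos hys
      by_cases hzs : 1 ≤ z % M ∧ z % M ≤ f
      · have ez : e z = Fin.castAdd m (c (z % M)) := if_pos hzs
        rw [ex, ey] at hxy
        rw [ey, ez] at hyz
        have h1 := Fin.castAdd_injective _ _ hxy
        have h2 := Fin.castAdd_injective _ _ hyz
        apply hc (x % M) (y % M) (z % M) hxs.1 hxs.2 hys.1 hys.2 hzs.1 hzs.2 h1 h2
        have h3 : (x % M + y % M) % M = z % M := by
          rw [← Nat.add_mod, hsum]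
        rw [Nat.mod_eq_of_lt (by omega)] at h3
        exact h3
      · have ez : e z = Fin.natAdd n (d ((z + f) / M)) := if_neg hzs
        rw [ey, ez] at hyz
        exact hne _ _ hyz
    · have ey : e y = Fin.natAdd n (d ((y + f) / M)) := if_neg hys
      rw [ex, ey] at hxy
      exact hne _ _ hxy
  · have ex : e x = Fin.natAdd n (d ((x + f) / M)) := if_neg hxs
    by_cases hys : 1 ≤ y % M ∧ y % M ≤ f
    · have ey : e y = Fin.castAdd m (c (y % M)) := if_pos hys
      rw [ex, ey] at hxy
      exact hne _ _ hxy.symm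
    · have ey : e y = Fin.natAdd n (d ((y + f) / M)) := if_neg hys
      by_cases hzs : 1 ≤ z % M ∧ z % M ≤ f
      · have ez : e z = Fin.castAdd m (c (z % M)) := if_pos hzs
        rw [ey, ez] at hyz
        exact hne _ _ hyz.symm
      · have ez : e z = Fin.natAdd n (d ((z + f) / M)) := if_neg hzs
        rw [ex, ey] at hxy
        rw [ey, ez] at hyz
        have h1 := Fin.natAdd_injective _ _ hxy
        have h2 := Fin.natAdd_injective _ _ hyz
        obtain ⟨x1, x2, x3, x4⟩ := hrep hM hx1 hx2 hxs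
        obtain ⟨y1, y2, y3, y4⟩ := hrep hM hy1 hy2 hys
        obtain ⟨z1, z2, z3, z4⟩ := hrep hM hz1 hz2 hzs
        apply hd _ _ _ x1 x2 y1 y2 z1 z2 h1 h2
        set A := (x + f) / M
        set B := (y + f) / M
        set C := (z + f) / M
        -- M (A + B - C) lies strictly between -M and M
        have h3 : M * C < M * (A + B + 1) := by
          rw [Nat.mul_add, Nat.mul_add]
          omega
        have h4 : M * (A + B) < M * (C + 1) := by
          rw [Nat.mul_add, Nat.mul_add]
          omega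
        have h5 := Nat.lt_of_mul_lt_mul_left h3
        have h6 := Nat.lt_of_mul_lt_mul_left h4
        omega

theorem s_super {n m : ℕ} (hn : 1 ≤ n) (hm : 1 ≤ m) :
    (2 * s n - 1) * (2 * s m - 1) ≤ 2 * s (n + m) - 1 := by
  have h1 := s_pos hn
  have h2 := s_pos hm
  obtain ⟨f, hf⟩ : ∃ f, s n = f + 1 := ⟨s n - 1, by omega⟩
  obtain ⟨g, hg⟩ : ∃ g, s m = g + 1 := ⟨s m - 1, by omega⟩
  have h3 : ¬ Forced n f := Nat.notMem_of_lt_sInf (show f < s n by omega)
  have h4 : ¬ Forced m g := Nat.notMem_of_lt_sInf (show g < s m by omega)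
  have h5 := not_forced_add h3 h4
  have h6 : (2 * f + 1) * g + f < s (n + m) := by
    by_contra hcon
    exact h5 ((forced_s (n + m)).mono (by omega))
  rw [hf, hg]
  have e1 : (2 * (f + 1) - 1) * (2 * (g + 1) - 1) = 2 * ((2 * f + 1) * g + f) + 1 := by
    have a1 : 2 * (f + 1) - 1 = 2 * f + 1 := by omega
    have a2 : 2 * (g + 1) - 1 = 2 * g + 1 := by omega
    rw [a1, a2]
    ring
  rw [e1]
  omega

/-- An auxiliary supermultiplicative sequence. -/
noncomputable def S (n : ℕ) : ℕ := if n = 0 then 1 else 2 * s n - 1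

theorem S_pos (n : ℕ) : 1 ≤ S n := by
  unfold S
  split_ifs with h
  · exact le_rfl
  · have := s_pos (n := n) (by omega)
    omega

theorem S_mul (n m : ℕ) : S n * S m ≤ S (n + m) := by
  rcases Nat.eq_zero_or_pos n with rfl | hn
  · simp [S]
  · rcases Nat.eq_zero_or_pos m with rfl | hm
    · simp [S]
    · have := s_super hn hm
      unfold S
      rw [if_neg (by omega), if_neg (by omega), if_neg (by omega)]
      exact this

theorem S_pow (m q : ℕ) : S m ^ q ≤ S (q * m) := by
  induction q with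
  | zero => simp [S]
  | succ q ih =>
    have h1 := S_mul (q * m) m
    have e : (q + 1) * m = q * m + m := by ring
    rw [e, pow_succ]
    exact (Nat.mul_le_mul_right _ ih).trans h1

theorem S_div (m n : ℕ) : S m ^ (n / m) ≤ S n := by
  have h1 := S_pow m (n / m)
  have h2 := S_mul (n / m * m) (n % m)
  have h3 : n / m * m + n % m = n := Nat.div_add_mod' n m
  rw [h3] at h2
  have h4 := S_pos (n % m)
  calc S m ^ (n / m) ≤ S (n / m * m) := h1
    _ ≤ S (n / m * m) * S (n % m) := Nat.le_mul_of_pos_right _ h4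
    _ ≤ S n := h2

/-- the normalised logarithm of the auxiliary sequence -/
noncomputable def X (n : ℕ) : ℝ := Real.log (S n) / n

theorem X_lower {m : ℕ} (hm : 1 ≤ m) {n : ℕ} (hn : 1 ≤ n) :
    X m - Real.log (S m) / n ≤ X n := by
  unfold X
  have h1 : Real.log ((S m : ℝ) ^ (n / m)) ≤ Real.log (S n) := by
    apply Real.log_le_log
    · have : (0 : ℝ) < S m := by exact_mod_cast S_pos m
      positivity
    · exact_mod_cast S_div m n
  rw [Real.log_pow] at h1
  have hm' : (0 : ℝ) < m := by exact_mod_cast hm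
  have hn' : (0 : ℝ) < n := by exact_mod_cast hn
  have hlog : 0 ≤ Real.log (S m) := Real.log_nonneg (by exact_mod_cast S_pos m)
  have h2 : (n : ℝ) / m - 1 ≤ ((n / m : ℕ) : ℝ) := by
    have h3 : (n : ℝ) < ((n / m : ℕ) + 1 : ℝ) * m := by
      have h4 := Nat.lt_div_mul_add (a := n) (b := m) hm
      have h5 : n < (n / m + 1) * m := by
        have : (n / m + 1) * m = n / m * m + m := by ring
        omega
      exact_mod_cast h5
    rw [sub_le_iff_le_add, div_le_iff₀ hm']
    exact h3.le
  have h3 : ((n : ℝ) / m - 1) * Real.log (S m) ≤ Real.log (S n) :=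
    (mul_le_mul_of_nonneg_right h2 hlog).trans h1
  rw [le_div_iff₀ hn']
  have h4 : (Real.log (S m) / m - Real.log (S m) / n) * n =
      ((n : ℝ) / m - 1) * Real.log (S m) := by
    field_simp
  rw [h4]
  exact h3

theorem tendsto_log_div (c : ℝ) : Tendsto (fun n : ℕ => c / (n : ℝ)) atTop (𝓝 0) :=
  tendsto_const_div_atTop_nhds_zero_nat c

/-- The common limit. -/
noncomputable def lim : EReal := ⨆ m : ℕ, ⨆ _ : 1 ≤ m, (X m : EReal)

theorem eventually_X {K : ℝ} (hK : (K : EReal) < lim) : ∀ᶠ n : ℕ in atTop, K < X n := by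
  unfold lim at hK
  rw [lt_iSup_iff] at hK
  obtain ⟨m, hm⟩ := hK
  rw [lt_iSup_iff] at hm
  obtain ⟨hm1, hm⟩ := hm
  have hm' : K < X m := by exact_mod_cast hm
  have h1 : Tendsto (fun n : ℕ => X m - Real.log (S m) / (n : ℝ)) atTop (𝓝 (X m - 0)) :=
    tendsto_const_nhds.sub (tendsto_log_div _)
  rw [sub_zero] at h1
  filter_upwards [h1.eventually (lt_mem_nhds hm'), eventually_ge_atTop 1] with n hn hn1
  exact lt_of_lt_of_le hn (X_lower hm1 hn1)

theorem X_le_lim {n : ℕ} (hn : 1 ≤ n) : (X n : EReal) ≤ lim := by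
  unfold lim
  exact le_iSup₂_of_le n hn le_rfl

theorem log_s_le {n : ℕ} (hn : 1 ≤ n) : Real.log (s n) ≤ Real.log (S n) := by
  have h1 := s_pos hn
  have h2 : s n ≤ S n := by
    unfold S
    rw [if_neg (by omega)]
    omega
  apply Real.log_le_log
  · exact_mod_cast h1
  · exact_mod_cast h2

theorem log_S_le {n : ℕ} (hn : 1 ≤ n) : Real.log (S n) ≤ Real.log 2 + Real.log (s n) := by
  have h1 := s_pos hn
  have h2 : S n ≤ 2 * s n := by
    unfold S
    rw [if_neg (by omega)]
    omega
  have h3 : (0 : ℝ) < s n := by exact_mod_cast h1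
  rw [← Real.log_mul (by norm_num) h3.ne']
  apply Real.log_le_log
  · exact_mod_cast S_pos n
  · exact_mod_cast h2

theorem tendsto_of_bounds {x : ℕ → ℝ} (h1 : ∀ n, 1 ≤ n → (x n : EReal) ≤ lim)
    (h2 : ∀ K : ℝ, (K : EReal) < lim → ∀ᶠ n : ℕ in atTop, K < x n) :
    Tendsto (fun n => (x n : EReal)) atTop (𝓝 lim) := by
  rw [tendsto_order]
  constructor
  · intro a ha
    obtain ⟨K, hK1, hK2⟩ := EReal.lt_iff_exists_real_btwn.1 ha
    filter_upwards [h2 K hK2] with n hn
    exact hK1.trans (by exact_mod_cast hn)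
  · intro a ha
    filter_upwards [eventually_ge_atTop 1] with n hn
    exact lt_of_le_of_lt (h1 n hn) ha

theorem tendsto_s : Tendsto (fun n : ℕ => ((Real.log (s n) / n : ℝ) : EReal)) atTop (𝓝 lim) := by
  apply tendsto_of_bounds
  · intro n hn
    refine le_trans ?_ (X_le_lim hn)
    have : Real.log (s n) / n ≤ X n := by
      unfold X
      exact div_le_div_of_nonneg_right (log_s_le hn) (Nat.cast_nonneg n)
    exact_mod_cast this
  · intro K hK
    obtain ⟨K', hK1, hK2⟩ := EReal.lt_iff_exists_real_btwn.1 hK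
    have hKK : K < K' := by exact_mod_cast hK1
    have h1 := tendsto_log_div (Real.log 2)
    filter_upwards [eventually_X hK2, h1.eventually (gt_mem_nhds (sub_pos.2 hKK)),
      eventually_ge_atTop 1] with n hn1 hn2 hn3
    have h2 : X n ≤ Real.log 2 / n + Real.log (s n) / n := by
      unfold X
      rw [← add_div]
      exact div_le_div_of_nonneg_right (log_S_le hn3) (Nat.cast_nonneg n)
    linarith

theorem t_pos {n : ℕ} (hn : 1 ≤ n) : 1 ≤ t n := by
  by_contra h
  have h0 : t n = 0 := by omega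
  have h1 := forcedMod_t n
  rw [h0] at h1
  obtain ⟨x, y, z, h1, h2, -⟩ := h1 (fun _ => ⟨0, hn⟩)
  omega

theorem s_le_t {n : ℕ} (hn : 1 ≤ n) : s n ≤ t (n + 1) := by
  have h1 := recursion hn
  have h2 := s_pos hn
  omega

theorem tendsto_t : Tendsto (fun n : ℕ => ((Real.log (t n) / n : ℝ) : EReal)) atTop (𝓝 lim) := by
  apply tendsto_of_bounds
  · intro n hn
    refine le_trans ?_ (X_le_lim hn)
    have : Real.log (t n) / n ≤ X n := by
      unfold X
      apply div_le_div_of_nonneg_right _ (Nat.cast_nonneg n)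
      refine le_trans ?_ (log_s_le hn)
      apply Real.log_le_log
      · exact_mod_cast t_pos hn
      · exact_mod_cast t_le_s n
    exact_mod_cast this
  · intro K hK
    obtain ⟨K', hK1, hK2⟩ := EReal.lt_iff_exists_real_btwn.1 hK
    have hKK : K < K' := by exact_mod_cast hK1
    have h1 := tendsto_log_div (Real.log 2)
    have h3 := tendsto_log_div (|K'| + |K|)
    -- eventually X n > K', and t (n+1) ≥ s n
    have h4 : ∀ᶠ n : ℕ in atTop, K < Real.log (t (n + 1)) / ((n + 1 : ℕ) : ℝ) := by
      have h5 : Tendsto (fun n : ℕ => (K' * n - Real.log 2) / ((n + 1 : ℕ) : ℝ)) atTop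
          (𝓝 K') := by
        have h6 : Tendsto (fun n : ℕ => K' - (K' + Real.log 2) / ((n + 1 : ℕ) : ℝ)) atTop
            (𝓝 (K' - 0)) :=
          tendsto_const_nhds.sub ((tendsto_log_div _).comp (tendsto_add_atTop_nat 1))
        rw [sub_zero] at h6
        refine h6.congr ?_
        intro n
        have : ((n + 1 : ℕ) : ℝ) ≠ 0 := by positivity
        field_simp
        push_cast
        ring
      filter_upwards [eventually_X hK2, h5.eventually (lt_mem_nhds hKK),
        eventually_ge_atTop 1] with n hn1 hn2 hn3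
      refine lt_of_lt_of_le hn2 ?_
      apply div_le_div_of_nonneg_right _ (Nat.cast_nonneg _)
      have h7 : Real.log (s n) ≤ Real.log (t (n + 1)) := by
        apply Real.log_le_log
        · exact_mod_cast s_pos hn3
        · exact_mod_cast s_le_t hn3
      have h8 := log_S_le hn3
      have h9 : K' * n ≤ Real.log (S n) := by
        unfold X at hn1
        have hn' : (0 : ℝ) < n := by exact_mod_cast hn3
        rw [lt_div_iff₀ hn'] at hn1
        exact hn1.le
      linarith
    have h6 := (eventually_atTop.1 h4)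
    obtain ⟨N, hN⟩ := h6
    rw [eventually_atTop]
    refine ⟨N + 1, ?_⟩
    intro n hn
    obtain ⟨k, rfl⟩ : ∃ k, n = k + 1 := ⟨n - 1, by omega⟩
    exact hN k (by omega)

end Pool.Agent.LibSchur53
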