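import Pool.Agent.LibSchur53.Template

set_option autoImplicit false

namespace Pool.Agent.LibSchur53

def M0 : ℕ := 1389345057850139429151540613501218
def M1 : ℕ := 178572850817084130631678500864
def M2 : ℕ := 488045481087868356030581871086104
def M3 : ℕ := 671854818120961603134647913710788
def M4 : ℕ := 2642872928625041156083094252421120

def tau (x : ℕ) : ℕ :=
  if M0.testBit x then 0 else if M1.testBit x then 1 else if M2.testBit x then 2
  else if M3.testBit x then 3 else 4

theorem c0 : okSum M0 111 = true := by decide +kernel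
theorem c1 : okSum M1 111 = true := by decide +kernel
theorem c2 : okSum M2 111 = true := by decide +kernel
theorem c3 : okSum M3 111 = true := by decide +kernel
theorem c4 : okSum M4 111 = true := by decide +kernel
theorem d0 : okMod M0 111 = true := by decide +kernel
theorem d1 : okMod M1 111 = true := by decide +kernel
theorem d2 : okMod M2 111 = true := by decide +kernel
theorem d3 : okMod M3 111 = true := by decide +kernel

theorem cover : ∀ x < 112, 1 ≤ x → tau x = 4 → M4.testBit x = true := by decide +kernel

theorem small : ∀ x < 44, 1 ≤ x → tau x < 4 := by decide +kernel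

theorem tau_le (x : ℕ) : tau x ≤ 4 := by
  unfold tau
  split_ifs <;> omega

theorem tau0 {x : ℕ} (h : tau x = 0) : M0.testBit x = true := by
  unfold tau at h
  split_ifs at h <;> first | assumption | omega

theorem tau1 {x : ℕ} (h : tau x = 1) : M1.testBit x = true := by
  unfold tau at h
  split_ifs at h <;> first | assumption | omega

theorem tau2 {x : ℕ} (h : tau x = 2) : M2.testBit x = true := by
  unfold tau at h
  split_ifs at h <;> first | assumption | omega

theorem tau3 {x : ℕ} (h : tau x = 3) : M3.testBit x = true := by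
  unfold tau at h
  split_ifs at h <;> first | assumption | omega

/-- The recursion given by a template of width 111. -/
theorem not_forced_111 {n m : ℕ} (hm : ¬ Forced n m) : ¬ Forced (4 + n) (111 * m + 43) := by
  apply not_forced_template (by norm_num) tau _ _ tau_le _ hm
  · intro x y z hx1 hx2 hy1 hy2 hz1 hz2 hxy hyz
    have h1 : tau x = 0 ∨ tau x = 1 ∨ tau x = 2 ∨ tau x = 3 ∨ tau x = 4 := by
      have := tau_le x
      omega
    rcases h1 with h | h | h | h | h
    · exact okSum_spec c0 hx2 (tau0 h) (tau0 (by omega)) (tau0 (by omega))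
    · exact okSum_spec c1 hx2 (tau1 h) (tau1 (by omega)) (tau1 (by omega))
    · exact okSum_spec c2 hx2 (tau2 h) (tau2 (by omega)) (tau2 (by omega))
    · exact okSum_spec c3 hx2 (tau3 h) (tau3 (by omega)) (tau3 (by omega))
    · exact okSum_spec c4 hx2 (cover x (by omega) hx1 h) (cover y (by omega) hy1 (by omega))
        (cover z (by omega) hz1 (by omega))
  · intro x y z hx1 hx2 hy1 hy2 hz1 hz2 hxy hyz hz
    have h1 : tau x = 0 ∨ tau x = 1 ∨ tau x = 2 ∨ tau x = 3 := by omega
    rcases h1 with h | h | h | h
    · exact okMod_spec d0 hx2 (tau0 h) (tau0 (by omega)) (tau0 (by omega))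
    · exact okMod_spec d1 hx2 (tau1 h) (tau1 (by omega)) (tau1 (by omega))
    · exact okMod_spec d2 hx2 (tau2 h) (tau2 (by omega)) (tau2 (by omega))
    · exact okMod_spec d3 hx2 (tau3 h) (tau3 (by omega)) (tau3 (by omega))
  · intro r hr1 hr2
    exact small r (by omega) hr1

theorem s_111 {n : ℕ} (hn : 1 ≤ n) : 111 * s n ≤ s (4 + n) + 67 := by
  have h1 := s_pos hn
  have h2 : ¬ Forced n (s n - 1) := Nat.notMem_of_lt_sInf (show s n - 1 < s n by omega)
  have h3 := not_forced_111 h2
  have h4 : 111 * (s n - 1) + 43 < s (4 + n) := by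
    by_contra hcon
    exact h3 ((forced_s (4 + n)).mono (by omega))
  omega

theorem two_le_s {n : ℕ} (hn : 1 ≤ n) : 2 ≤ s n := by
  by_contra h
  have h0 : s n ≤ 1 := by omega
  have h1 := (forced_s n).mono h0
  obtain ⟨x, y, z, h2, h3, h4, h5, h6, h7, -, -, h8⟩ := h1 (fun _ => ⟨0, hn⟩)
  omega

theorem s_pow {n j : ℕ} (hn : 1 ≤ n) : 111 ^ j + 1 ≤ s (4 * j + n) := by
  induction j with
  | zero =>
    have := two_le_s hn
    simpa using this
  | succ j ih =>
    have h1 := s_111 (n := 4 * j + n) (by omega)
    have e : 4 + (4 * j + n) = 4 * (j + 1) + n := by ring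
    rw [e] at h1
    rw [pow_succ]
    have h2 : 1 ≤ 111 ^ j := Nat.one_le_pow _ _ (by norm_num)
    omega

end Pool.Agent.LibSchur53
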