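import Pool.Agent.LibSchur53.Basic

set_option autoImplicit false

namespace Pool.Agent.LibSchur53

/-- Rowley's template construction. -/
theorem not_forced_template {p n a b m : ℕ} (ha : 1 ≤ a) (τ : ℕ → ℕ)
    (h1 : ∀ x y z, 1 ≤ x → x ≤ a → 1 ≤ y → y ≤ a → 1 ≤ z → z ≤ a → τ x = τ y → τ y = τ z →
      x + y ≠ z)
    (h2 : ∀ x y z, 1 ≤ x → x ≤ a → 1 ≤ y → y ≤ a → 1 ≤ z → z ≤ a → τ x = τ y → τ y = τ z →
      τ z < p → x + y ≠ z + a)
    (h0 : ∀ x, τ x ≤ p)
    (h3 : ∀ r, 1 ≤ r → r ≤ b → τ r < p) (hm : ¬ Forced n m) :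
    ¬ Forced (p + n) (a * m + b) := by
  unfold Forced at hm
  push Not at hm
  obtain ⟨d, hd⟩ := hm
  intro hF
  let ρ : ℕ → ℕ := fun x => (x - 1) % a + 1
  let α : ℕ → ℕ := fun x => (x - 1) / a
  have hρ1 : ∀ x, 1 ≤ ρ x := fun x => by simp only [ρ]; omega
  have hρ2 : ∀ x, ρ x ≤ a := fun x => by
    have := Nat.mod_lt (x - 1) (show 0 < a by omega)
    simp only [ρ]
    omega
  have hρα : ∀ x, 1 ≤ x → x = a * α x + ρ x := by
    intro x hx
    have := Nat.div_add_mod (x - 1) a
    simp only [ρ, α]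
    omega
  let e : ℕ → Fin (p + n) := fun x =>
    if h : τ (ρ x) < p then Fin.castAdd n ⟨τ (ρ x), h⟩ else Fin.natAdd p (d (α x + 1))
  obtain ⟨x, y, z, hx1, hx2, hy1, hy2, hz1, hz2, hxy, hyz, hsum⟩ := hF e
  have hne : ∀ (i : Fin p) (j : Fin n), Fin.castAdd n i ≠ Fin.natAdd p j := by
    intro i j h
    have := congrArg Fin.val h
    simp only [Fin.val_castAdd, Fin.val_natAdd] at this
    have := i.2
    omega
  have rx := hρα x hx1
  have ry := hρα y hy1
  have rz := hρα z hz1
  have rx1 := hρ1 x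
  have ry1 := hρ1 y
  have rz1 := hρ1 z
  have rx2 := hρ2 x
  have ry2 := hρ2 y
  have rz2 := hρ2 z
  -- the two possibilities for the residues
  have hres : (α x + α y = α z ∧ ρ x + ρ y = ρ z) ∨
      (α z = α x + α y + 1 ∧ ρ x + ρ y = ρ z + a) := by
    have h4 : a * α x + a * α y + (ρ x + ρ y) = a * α z + ρ z := by omega
    have h5 : a * (α x + α y) < a * (α z + 1) := by
      rw [Nat.mul_add, Nat.mul_add]
      omega
    have h6 : a * α z < a * (α x + α y + 2) := by
      rw [Nat.mul_add, Nat.mul_add]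
      omega
    have h7 := Nat.lt_of_mul_lt_mul_left h5
    have h8 := Nat.lt_of_mul_lt_mul_left h6
    rcases Nat.lt_or_ge (α x + α y) (α z) with h9 | h9
    · right
      have h10 : α z = α x + α y + 1 := by omega
      refine ⟨h10, ?_⟩
      rw [h10, Nat.mul_add, Nat.mul_add] at h4
      omega
    · left
      have h10 : α x + α y = α z := by omega
      refine ⟨h10, ?_⟩
      rw [← h10, Nat.mul_add] at h4
      omega
  have hspecial : ∀ u, 1 ≤ u → u ≤ a * m + b → ¬ τ (ρ u) < p → α u + 1 ≤ m := by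
    intro u hu1 hu2 hu
    by_contra hcon
    have h4 : m ≤ α u := by omega
    have h5 : a * m ≤ a * α u := Nat.mul_le_mul_left _ h4
    have h6 := hρα u hu1
    exact hu (h3 (ρ u) (hρ1 u) (by omega))
  by_cases hxs : τ (ρ x) < p
  · have ex : e x = Fin.castAdd n ⟨τ (ρ x), hxs⟩ := dif_pos hxs
    by_cases hys : τ (ρ y) < p
    · have ey : e y = Fin.castAdd n ⟨τ (ρ y), hys⟩ := dif_pos hys
      by_cases hzs : τ (ρ z) < p
      · have ez : e z = Fin.castAdd n ⟨τ (ρ z), hzs⟩ := dif_pos hzs
        rw [ex, ey] at hxy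
        rw [ey, ez] at hyz
        have h4 := congrArg Fin.val (Fin.castAdd_injective _ _ hxy)
        have h5 := congrArg Fin.val (Fin.castAdd_injective _ _ hyz)
        simp only at h4 h5
        rcases hres with ⟨-, h6⟩ | ⟨-, h6⟩
        · exact h1 _ _ _ rx1 rx2 ry1 ry2 rz1 rz2 h4 h5 h6
        · exact h2 _ _ _ rx1 rx2 ry1 ry2 rz1 rz2 h4 h5 hzs h6
      · have ez : e z = Fin.natAdd p (d (α z + 1)) := dif_neg hzs
        rw [ey, ez] at hyz
        exact hne _ _ hyz
    · have ey : e y = Fin.natAdd p (d (α y + 1)) := dif_neg hys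
      rw [ex, ey] at hxy
      exact hne _ _ hxy
  · have ex : e x = Fin.natAdd p (d (α x + 1)) := dif_neg hxs
    by_cases hys : τ (ρ y) < p
    · have ey : e y = Fin.castAdd n ⟨τ (ρ y), hys⟩ := dif_pos hys
      rw [ex, ey] at hxy
      exact hne _ _ hxy.symm
    · have ey : e y = Fin.natAdd p (d (α y + 1)) := dif_neg hys
      by_cases hzs : τ (ρ z) < p
      · have ez : e z = Fin.castAdd n ⟨τ (ρ z), hzs⟩ := dif_pos hzs
        rw [ey, ez] at hyz
        exact hne _ _ hyz.symm
      · have ez : e z = Fin.natAdd p (d (α z + 1)) := dif_neg hzs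
        rw [ex, ey] at hxy
        rw [ey, ez] at hyz
        have h4 := Fin.natAdd_injective _ _ hxy
        have h5 := Fin.natAdd_injective _ _ hyz
        have tx : τ (ρ x) = p := le_antisymm (h0 _) (not_lt.1 hxs)
        have ty : τ (ρ y) = p := le_antisymm (h0 _) (not_lt.1 hys)
        have tz : τ (ρ z) = p := le_antisymm (h0 _) (not_lt.1 hzs)
        rcases hres with ⟨-, h6⟩ | ⟨h6, -⟩
        · exact h1 _ _ _ rx1 rx2 ry1 ry2 rz1 rz2 (tx.trans ty.symm) (ty.trans tz.symm) h6
        · have sx := hspecial x hx1 hx2 hxs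
          have sy := hspecial y hy1 hy2 hys
          have sz := hspecial z hz1 hz2 hzs
          exact hd _ _ _ (by omega) sx (by omega) sy (by omega) sz h4 h5 (by omega)

/-- A class given by a bit mask is sum-free up to `a`. -/
def okSum (M a : ℕ) : Bool :=
  decide (∀ x < a + 1, M.testBit x = true → (M <<< x) &&& M = 0)

/-- A class given by a bit mask has no solution of `x + y = z + a` up to `a`. -/
def okMod (M a : ℕ) : Bool :=
  decide (∀ x < a + 1, M.testBit x = true → ((M <<< x) >>> a) &&& M = 0)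

theorem okSum_spec {M a : ℕ} (h : okSum M a = true) {x y z : ℕ} (hx : x ≤ a)
    (tx : M.testBit x = true) (ty : M.testBit y = true) (tz : M.testBit z = true) :
    x + y ≠ z := by
  intro hsum
  have h1 := (decide_eq_true_iff.1 h) x (by omega) tx
  have h2 : ((M <<< x) &&& M).testBit z = true := by
    rw [Nat.testBit_and, Nat.testBit_shiftLeft, tz]
    have : z - x = y := by omega
    rw [this, ty]
    simp
    omega
  rw [h1] at h2
  simp at h2

theorem okMod_spec {M a : ℕ} (h : okMod M a = true) {x y z : ℕ} (hx : x ≤ a)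
    (tx : M.testBit x = true) (ty : M.testBit y = true) (tz : M.testBit z = true) :
    x + y ≠ z + a := by
  intro hsum
  have h1 := (decide_eq_true_iff.1 h) x (by omega) tx
  have h2 : (((M <<< x) >>> a) &&& M).testBit z = true := by
    rw [Nat.testBit_and, Nat.testBit_shiftRight, Nat.testBit_shiftLeft, tz]
    have : a + z - x = y := by omega
    rw [this, ty]
    simp
    omega
  rw [h1] at h2
  simp at h2

end Pool.Agent.LibSchur53
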